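import Pool.Agent.PDP.Per

set_option autoImplicit false

namespace Pool.Agent.PDP

open Finset

/-- the predicate of being a `d`-th power -/
def IsPw (d i : ℕ) : Prop := ∃ k : ℕ, k ^ d = i

noncomputable instance (d : ℕ) : DecidablePred (IsPw d) := fun _ => Classical.propDecidable _

lemma sg_prime (d u : ℕ) (hd : 2 ≤ d) (hu : u.Prime) : sg (IsPw d) u = 1 := by
  unfold sg
  have : u.divisors.filter (IsPw d) = {1} := by
    ext i
    simp only [Finset.mem_filter, Nat.mem_divisors, Finset.mem_singleton]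
    constructor
    · rintro ⟨⟨hi, _⟩, k, rfl⟩
      rcases (Nat.dvd_prime hu).1 hi with h | h
      · exact h
      · exfalso
        rw [← h] at hu
        exact Nat.Prime.not_prime_pow hd hu
    · rintro rfl
      exact ⟨⟨one_dvd _, hu.ne_zero⟩, 1, one_pow _⟩
  rw [this, Finset.sum_singleton]

lemma sg_prime_pow_mul (d l u : ℕ) (hd : 2 ≤ d) (hl : l.Prime) (hu : u.Prime) (hlu : l ≠ u) :
    sg (IsPw d) (l ^ d * u) = 1 + l ^ d := by
  unfold sg
  have hl1 : 1 < l ^ d := Nat.one_lt_pow (by omega) hl.one_lt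
  have : (l ^ d * u).divisors.filter (IsPw d) = {1, l ^ d} := by
    ext i
    simp only [Finset.mem_filter, Nat.mem_divisors, Finset.mem_insert, Finset.mem_singleton]
    constructor
    · rintro ⟨⟨hi, _⟩, k, rfl⟩
      have huk : ¬ u ∣ k := by
        intro h
        have h1 : u ^ d ∣ l ^ d * u := (pow_dvd_pow_of_dvd h d).trans hi
        have h2 : u ^ d = u ^ (d - 1) * u := by
          rw [← pow_succ]; congr 1; omega
        rw [h2] at h1
        have h3 : u ^ (d - 1) ∣ l ^ d := Nat.dvd_of_mul_dvd_mul_right hu.pos h1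
        have h4 : u ∣ l ^ d := (dvd_pow_self u (by omega)).trans h3
        have h5 := hu.dvd_of_dvd_pow h4
        exact hlu ((Nat.prime_dvd_prime_iff_eq hu hl).1 h5).symm
      have hc : Nat.Coprime (k ^ d) u :=
        (Nat.Coprime.pow_left d ((Nat.Prime.coprime_iff_not_dvd hu).2 huk).symm)
      have h6 : k ^ d ∣ l ^ d := hc.dvd_of_dvd_mul_right hi
      have h7 : k ∣ l := (Nat.pow_dvd_pow_iff (by omega)).1 h6
      rcases (Nat.dvd_prime hl).1 h7 with h | h
      · left; rw [h, one_pow]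
      · right; rw [h]
    · rintro (rfl | rfl)
      · exact ⟨⟨one_dvd _, Nat.mul_ne_zero (pow_ne_zero _ hl.ne_zero) hu.ne_zero⟩, 1, one_pow _⟩
      · exact ⟨⟨Dvd.intro _ rfl, Nat.mul_ne_zero (pow_ne_zero _ hl.ne_zero) hu.ne_zero⟩, l, rfl⟩
  rw [this, Finset.sum_pair (by omega)]

lemma per_mul {K : Type*} (a : ℕ → K) (T N : ℕ) (h : ∀ n, N ≤ n → a (n + T) = a n) (k : ℕ) :
    ∀ n, N ≤ n → a (n + k * T) = a n := by
  induction k with
  | zero => intro n _; simp
  | succ k ih =>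
    intro n hn
    rw [show n + (k + 1) * T = (n + k * T) + T by ring, h _ (by omega), ih n hn]

lemma not_per_prime (d p : ℕ) (hd : 2 ≤ d) (hp : p.Prime) (T N : ℕ) (hT : 0 < T) :
    ¬ ∀ n, N ≤ n → pa (IsPw d) (n + T) ≡ pa (IsPw d) n [MOD p] := by
  intro hper
  have : Fact p.Prime := ⟨hp⟩
  have h1 : ∀ n, N ≤ n → ((pa (IsPw d) (n + T) : ℕ) : ZMod p) = ((pa (IsPw d) n : ℕ) : ZMod p) :=
    fun n hn => (ZMod.natCast_eq_natCast_iff _ _ _).2 (hper n hn)
  have h2 := per_mul (fun n => ((pa (IsPw d) n : ℕ) : ZMod p)) T N h1 p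
  obtain ⟨T', N', hT', h3⟩ := per_of_per (fun n => ((pa (IsPw d) n : ℕ) : ZMod p))
    (fun n => ((sg (IsPw d) n : ℕ) : ZMod p)) (by simp [pa_zero]) (by
      intro n
      have := congrArg (Nat.cast : ℕ → ZMod p) (rec_nat (IsPw d) n)
      push_cast at this
      rw [this]
      rw [Finset.Nat.sum_antidiagonal_eq_sum_range_succ
        (fun i j => ((sg (IsPw d) i : ℕ) : ZMod p) * ((pa (IsPw d) j : ℕ) : ZMod p))]
      rw [Finset.range_eq_Ico, Finset.sum_eq_sum_Ico_succ_bot (by omega)]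
      have h0 : sg (IsPw d) 0 = 0 := by simp [sg]
      rw [h0]
      simp only [Nat.cast_zero, zero_mul, zero_add]
      rfl)
    (p * T) N (Nat.mul_pos hp.pos hT) (by push_cast; simp) h2
  have h4 : ∀ n n', N' ≤ n → N' ≤ n' → n ≡ n' [MOD T'] →
      ((sg (IsPw d) n : ℕ) : ZMod p) = ((sg (IsPw d) n' : ℕ) : ZMod p) := by
    have aux : ∀ n n', N' ≤ n → n ≤ n' → n ≡ n' [MOD T'] →
      ((sg (IsPw d) n : ℕ) : ZMod p) = ((sg (IsPw d) n' : ℕ) : ZMod p) := by
      intro n n' hn hnn hc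
      obtain ⟨k, hk⟩ := (Nat.modEq_iff_dvd' hnn).1 hc
      have : n' = n + k * T' := by rw [mul_comm k T', ← hk]; omega
      rw [this]
      exact (per_mul (fun n => ((sg (IsPw d) n : ℕ) : ZMod p)) T' N' h3 k n hn).symm
    intro n n' hn hn' hc
    rcases le_total n n' with h | h
    · exact aux n n' hn h hc
    · exact (aux n' n hn' h hc.symm).symm
  obtain ⟨l, hl, hlp, hl1⟩ := Nat.exists_prime_gt_modEq_one p hT'.ne'
  obtain ⟨u, hu, hul, hu1⟩ := Nat.exists_prime_gt_modEq_one (l + N') hT'.ne'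
  have h5 : l ^ d * u ≡ u [MOD T'] := by
    have := (hl1.pow d).mul_right u
    simpa using this
  have hge : u ≤ l ^ d * u := Nat.le_mul_of_pos_left _ (pow_pos hl.pos d)
  have h6 := h4 (l ^ d * u) u (by omega) (by omega) h5
  rw [sg_prime d u hd hu, sg_prime_pow_mul d l u hd hl hu (by omega)] at h6
  push_cast at h6
  have h7 : ((l : ZMod p)) ^ d = 0 := by
    have := congrArg (fun z => z - 1) h6
    simpa using this
  have h8 : ((l : ℕ) : ZMod p) = 0 := by
    exact pow_eq_zero_iff (by omega : d ≠ 0) |>.1 h7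
  rw [ZMod.natCast_eq_zero_iff] at h8
  have := (Nat.prime_dvd_prime_iff_eq hp hl).1 h8
  omega

lemma card_eq (d n : ℕ) :
    Nat.card {p : Nat.Partition n // ∀ i ∈ p.parts, ∃ k : ℕ, k ^ d = i} = pa (IsPw d) n := by
  classical
  unfold pa Nat.Partition.restricted
  rw [Nat.card_eq_fintype_card, Fintype.card_subtype]
  congr 1
  ext x
  simp [IsPw]

end Pool.Agent.PDP
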