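import Pool.Agent.PDP.Rec

set_option autoImplicit false

namespace Pool.Agent.PDP

open Finset

/-- a linear recurrence over a finite ring makes a sequence eventually periodic -/
lemma per_of_rec {K : Type*} [CommRing K] [Finite K] (s c : ℕ → K) (L : ℕ)
    (h : ∀ m, s (m + L) = ∑ j ∈ Finset.range L, c j * s (m + j)) :
    ∃ T N, 0 < T ∧ ∀ n, N ≤ n → s (n + T) = s n := by
  classical
  let v : ℕ → (Fin L → K) := fun m j => s (m + j)
  have hv : ¬ Function.Injective v := not_injective_infinite_finite v
  unfold Function.Injective at hv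
  push Not at hv
  have key : ∀ m1 m2 : ℕ, v m1 = v m2 → ∀ k, s (m1 + k) = s (m2 + k) := by
    intro m1 m2 he k
    induction k using Nat.strong_induction_on with
    | _ k ih =>
      by_cases hk : k < L
      · exact congrFun he ⟨k, hk⟩
      · have e : k = (k - L) + L := by omega
        have e1 : m1 + k = (m1 + (k - L)) + L := by omega
        have e2 : m2 + k = (m2 + (k - L)) + L := by omega
        rw [e1, e2, h, h]
        refine Finset.sum_congr rfl ?_
        intro j hj
        rw [Finset.mem_range] at hj
        rw [add_assoc, add_assoc, ih (k - L + j) (by omega)]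
  obtain ⟨a, b, hab, hne⟩ := hv
  rcases Nat.lt_or_gt_of_ne hne with hlt | hlt
  · refine ⟨b - a, a, by omega, ?_⟩
    intro n hn
    have := key a b hab (n - a)
    rw [show a + (n - a) = n by omega, show b + (n - a) = n + (b - a) by omega] at this
    exact this.symm
  · refine ⟨a - b, b, by omega, ?_⟩
    intro n hn
    have := key a b hab (n - b)
    rw [show b + (n - b) = n by omega, show a + (n - b) = n + (a - b) by omega] at this
    exact this

/-- if `n a(n) = ∑ s(j) a(n-j)` with `a 0 = 1` and `a` is eventually periodic, so is `s` -/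
lemma per_of_per {K : Type*} [CommRing K] [Finite K] (a s : ℕ → K) (ha0 : a 0 = 1)
    (hrec : ∀ n : ℕ, (n : K) * a n = ∑ p ∈ Finset.HasAntidiagonal.antidiagonal n, s p.1 * a p.2)
    (T N : ℕ) (hT : 0 < T) (hTK : (T : K) = 0) (hper : ∀ n, N ≤ n → a (n + T) = a n) :
    ∃ T' N', 0 < T' ∧ ∀ n, N' ≤ n → s (n + T') = s n := by
  classical
  let F : PowerSeries K := PowerSeries.mk a
  let S : PowerSeries K := PowerSeries.mk s
  let G : PowerSeries K := PowerSeries.mk (fun n => (n : K) * a n)
  have hSF : S * F = G := by
    ext n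
    rw [PowerSeries.coeff_mul]
    simp only [S, F, G, PowerSeries.coeff_mk]
    rw [hrec]
  let Q : PowerSeries K := (1 - PowerSeries.X ^ T) * F
  have hcoeff : ∀ (H : PowerSeries K) (n : ℕ), T ≤ n →
      PowerSeries.coeff n ((1 - PowerSeries.X ^ T) * H)
        = PowerSeries.coeff n H - PowerSeries.coeff (n - T) H := by
    intro H n hn
    rw [sub_mul, one_mul, map_sub, PowerSeries.coeff_X_pow_mul', if_pos hn]
  have hQ0 : PowerSeries.coeff 0 Q = 1 := by
    simp only [Q]
    rw [sub_mul, one_mul, map_sub, PowerSeries.coeff_X_pow_mul', if_neg (by omega), sub_zero]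
    simp only [F, PowerSeries.coeff_mk]
    exact ha0
  have hQ : ∀ n, N + T ≤ n → PowerSeries.coeff n Q = 0 := by
    intro n hn
    simp only [Q]
    rw [hcoeff F n (by omega)]
    simp only [F, PowerSeries.coeff_mk]
    have := hper (n - T) (by omega)
    rw [show n - T + T = n by omega] at this
    rw [this, sub_self]
  have hSQ : ∀ n, N + T ≤ n → PowerSeries.coeff n (S * Q) = 0 := by
    intro n hn
    have e : S * Q = (1 - PowerSeries.X ^ T) * G := by
      simp only [Q]
      rw [← hSF]; ring
    rw [e, hcoeff G n (by omega)]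
    simp only [G, PowerSeries.coeff_mk]
    have := hper (n - T) (by omega)
    rw [show n - T + T = n by omega] at this
    rw [this]
    have e2 : ((n - T : ℕ) : K) = (n : K) := by
      rw [Nat.cast_sub (by omega), hTK, sub_zero]
    rw [e2, sub_self]
  apply per_of_rec s (fun j => - PowerSeries.coeff (N + T - j) Q) (N + T)
  intro m
  have h1 := hSQ (m + (N + T)) (by omega)
  rw [PowerSeries.coeff_mul, Finset.Nat.sum_antidiagonal_eq_sum_range_succ
    (fun i j => PowerSeries.coeff i S * PowerSeries.coeff j Q)] at h1
  have h2 : ∑ k ∈ Finset.range (m + (N + T)).succ,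
      PowerSeries.coeff k S * PowerSeries.coeff (m + (N + T) - k) Q
      = ∑ k ∈ Finset.range (m + 0),
          PowerSeries.coeff k S * PowerSeries.coeff (m + (N + T) - k) Q
        + ∑ j ∈ Finset.range ((N + T) + 1),
          PowerSeries.coeff (m + j) S * PowerSeries.coeff (m + (N + T) - (m + j)) Q := by
    rw [show (m + (N + T)).succ = (m + 0) + ((N + T) + 1) by omega, Finset.sum_range_add]
    simp
  have h3 : ∑ k ∈ Finset.range (m + 0),
          PowerSeries.coeff k S * PowerSeries.coeff (m + (N + T) - k) Q = 0 := by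
    refine Finset.sum_eq_zero ?_
    intro k hk
    rw [Finset.mem_range] at hk
    rw [hQ _ (by omega), mul_zero]
  rw [h2, h3, zero_add, Finset.sum_range_succ] at h1
  rw [show m + (N + T) - (m + (N + T)) = 0 by omega, hQ0, mul_one] at h1
  have h4 : PowerSeries.coeff (m + (N + T)) S = s (m + (N + T)) := by
    simp only [S, PowerSeries.coeff_mk]
  rw [h4] at h1
  have h5 : s (m + (N + T)) = - ∑ j ∈ Finset.range (N + T),
      PowerSeries.coeff (m + j) S * PowerSeries.coeff (m + (N + T) - (m + j)) Q := by
    exact eq_neg_of_add_eq_zero_right h1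
  rw [h5, ← Finset.sum_neg_distrib]
  refine Finset.sum_congr rfl ?_
  intro j hj
  rw [Finset.mem_range] at hj
  rw [show m + (N + T) - (m + j) = N + T - j by omega]
  simp only [S, PowerSeries.coeff_mk]
  ring

end Pool.Agent.PDP
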