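import Mathlib

/-!
# Partitions into parts from a set: the logarithmic recurrence
-/

set_option autoImplicit false

namespace Pool.Agent.PDP

open Finset

/-- number of partitions of `n` all of whose parts satisfy `P` -/
noncomputable def pa (P : ℕ → Prop) [DecidablePred P] (n : ℕ) : ℕ :=
  (Nat.Partition.restricted n P).card

/-- sum of the divisors of `n` satisfying `P` -/
noncomputable def sg (P : ℕ → Prop) [DecidablePred P] (n : ℕ) : ℕ :=
  ∑ i ∈ n.divisors.filter P, i

variable (P : ℕ → Prop) [DecidablePred P]

lemma pa_zero : pa P 0 = 1 := by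
  unfold pa Nat.Partition.restricted
  rw [Finset.filter_true_of_mem]
  · simp
  · intro x _ i hi
    simp at hi

lemma card_ge (i t n : ℕ) (hi : 0 < i) (hP : P i) (h : t * i ≤ n) :
    ((Nat.Partition.restricted n P).filter (fun l => t ≤ l.parts.count i)).card
      = pa P (n - t * i) := by
  classical
  have hsum : ∀ m : Nat.Partition (n - t * i),
      (Multiset.replicate t i + m.parts).sum = n := by
    intro m
    rw [Multiset.sum_add, m.parts_sum, Multiset.sum_replicate, smul_eq_mul]
    omega
  have hpos : ∀ m : Nat.Partition (n - t * i), ∀ {j : ℕ},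
      j ∈ Multiset.replicate t i + m.parts → 0 < j := by
    intro m j hj
    rw [Multiset.mem_add] at hj
    rcases hj with hj | hj
    · rw [Multiset.eq_of_mem_replicate hj]; exact hi
    · exact m.parts_pos hj
  let f : Nat.Partition (n - t * i) → Nat.Partition n := fun m =>
    ⟨Multiset.replicate t i + m.parts, hpos m, hsum m⟩
  have hf : Function.Injective f := by
    intro a b hab
    have := congrArg Nat.Partition.parts hab
    exact Nat.Partition.ext (add_left_cancel this)
  unfold pa
  rw [← Finset.card_image_of_injective _ hf]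
  congr 1
  ext l
  simp only [Nat.Partition.restricted, Finset.mem_filter, Finset.mem_univ, true_and,
    Finset.mem_image]
  constructor
  · rintro ⟨h1, h2⟩
    rw [Multiset.le_count_iff_replicate_le] at h2
    obtain ⟨u, hu⟩ := Multiset.le_iff_exists_add.1 h2
    refine ⟨⟨u, ?_, ?_⟩, ?_, ?_⟩
    · intro j hj
      exact l.parts_pos (by rw [hu]; exact Multiset.mem_add.2 (Or.inr hj))
    · have := l.parts_sum
      rw [hu, Multiset.sum_add, Multiset.sum_replicate, smul_eq_mul] at this
      omega
    · intro j hj
      exact h1 j (by rw [hu]; exact Multiset.mem_add.2 (Or.inr hj))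
    · exact Nat.Partition.ext hu.symm
  · rintro ⟨m, hm, rfl⟩
    refine ⟨?_, ?_⟩
    · intro j hj
      change j ∈ Multiset.replicate t i + m.parts at hj
      rw [Multiset.mem_add] at hj
      rcases hj with hj | hj
      · rw [Multiset.eq_of_mem_replicate hj]; exact hP
      · exact hm j hj
    · rw [Multiset.le_count_iff_replicate_le]
      exact Multiset.le_add_right _ _

lemma sum_count (i n : ℕ) (hi : 0 < i) (hP : P i) :
    ∑ l ∈ Nat.Partition.restricted n P, l.parts.count i
      = ∑ j ∈ Finset.Icc 1 n, (if i ∣ j then pa P (n - j) else 0) := by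
  classical
  have h1 : ∀ l ∈ Nat.Partition.restricted n P, l.parts.count i
      = ∑ t ∈ Finset.Icc 1 n, (if t ≤ l.parts.count i then 1 else 0) := by
    intro l _
    have hle : l.parts.count i ≤ n := by
      have h2 : Multiset.replicate (l.parts.count i) i ≤ l.parts :=
        Multiset.le_count_iff_replicate_le.1 le_rfl
      obtain ⟨u, hu⟩ := Multiset.le_iff_exists_add.1 h2
      have h3 := l.parts_sum
      rw [hu, Multiset.sum_add, Multiset.sum_replicate, smul_eq_mul] at h3
      have h4 : l.parts.count i ≤ l.parts.count i * i := Nat.le_mul_of_pos_right _ hi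
      omega
    rw [← Finset.sum_filter, Finset.sum_const, smul_eq_mul, mul_one]
    have : (Finset.Icc 1 n).filter (fun t => t ≤ l.parts.count i)
        = Finset.Icc 1 (l.parts.count i) := by
      ext t
      simp only [Finset.mem_filter, Finset.mem_Icc]
      omega
    rw [this]
    simp
  rw [Finset.sum_congr rfl h1, Finset.sum_comm]
  have h2 : ∀ t ∈ Finset.Icc 1 n,
      ∑ l ∈ Nat.Partition.restricted n P, (if t ≤ l.parts.count i then 1 else 0)
        = if t * i ≤ n then pa P (n - t * i) else 0 := by
    intro t ht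
    rw [← Finset.sum_filter, Finset.sum_const, smul_eq_mul, mul_one]
    split_ifs with h
    · exact card_ge P i t n hi hP h
    · rw [Finset.card_eq_zero, Finset.filter_eq_empty_iff]
      intro l _ hl
      rw [Multiset.le_count_iff_replicate_le] at hl
      obtain ⟨u, hu⟩ := Multiset.le_iff_exists_add.1 hl
      have h3 := l.parts_sum
      rw [hu, Multiset.sum_add, Multiset.sum_replicate, smul_eq_mul] at h3
      omega
  rw [Finset.sum_congr rfl h2, ← Finset.sum_filter, ← Finset.sum_filter]
  refine Finset.sum_nbij (fun t => t * i) ?_ ?_ ?_ ?_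
  · intro t ht
    simp only [Finset.mem_filter, Finset.mem_Icc] at ht ⊢
    refine ⟨⟨?_, ht.2⟩, Dvd.intro_left t rfl⟩
    exact Nat.mul_pos (by omega) hi
  · intro a _ b _ hab
    exact Nat.eq_of_mul_eq_mul_right hi hab
  · intro j hj
    simp only [Finset.coe_filter, Finset.mem_Icc, Set.mem_ofPred_eq] at hj
    obtain ⟨⟨hj1, hj2⟩, k, hk⟩ := hj
    refine ⟨k, ?_, ?_⟩
    · simp only [Finset.coe_filter, Finset.mem_Icc, Set.mem_ofPred_eq]
      have hk0 : 0 < k := by
        rcases Nat.eq_zero_or_pos k with h0 | h0
        · subst h0; simp at hk; omega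
        · exact h0
      have hkn : k ≤ i * k := Nat.le_mul_of_pos_left _ hi
      refine ⟨⟨by omega, by omega⟩, ?_⟩
      rw [mul_comm, ← hk]; exact hj2
    · show k * i = j
      rw [hk, mul_comm]
  · intro t _
    rfl

lemma rec_nat (n : ℕ) :
    n * pa P n = ∑ j ∈ Finset.Icc 1 n, sg P j * pa P (n - j) := by
  classical
  have h1 : n * pa P n = ∑ l ∈ Nat.Partition.restricted n P, l.parts.sum := by
    rw [Finset.sum_congr rfl (fun l _ => l.parts_sum), Finset.sum_const, smul_eq_mul, mul_comm]
    rfl
  have h2 : ∀ l ∈ Nat.Partition.restricted n P, l.parts.sum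
      = ∑ i ∈ (Finset.Icc 1 n).filter P, l.parts.count i * i := by
    intro l hl
    simp only [Nat.Partition.restricted, Finset.mem_filter, Finset.mem_univ, true_and] at hl
    rw [Finset.sum_multiset_count]
    simp only [smul_eq_mul]
    apply Finset.sum_subset
    · intro i hi
      rw [Multiset.mem_toFinset] at hi
      simp only [Finset.mem_filter, Finset.mem_Icc]
      exact ⟨⟨l.parts_pos hi, l.le_of_mem_parts hi⟩, hl i hi⟩
    · intro i _ hi
      rw [Multiset.mem_toFinset] at hi
      rw [Multiset.count_eq_zero_of_notMem hi, zero_mul]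
  rw [h1, Finset.sum_congr rfl h2, Finset.sum_comm]
  have h3 : ∀ i ∈ (Finset.Icc 1 n).filter P,
      ∑ l ∈ Nat.Partition.restricted n P, l.parts.count i * i
        = ∑ j ∈ Finset.Icc 1 n, (if i ∣ j then pa P (n - j) * i else 0) := by
    intro i hi
    simp only [Finset.mem_filter, Finset.mem_Icc] at hi
    rw [← Finset.sum_mul, sum_count P i n hi.1.1 hi.2, Finset.sum_mul]
    refine Finset.sum_congr rfl ?_
    intro j _
    split_ifs <;> simp
  rw [Finset.sum_congr rfl h3, Finset.sum_comm]
  refine Finset.sum_congr rfl ?_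
  intro j hj
  simp only [Finset.mem_Icc] at hj
  rw [← Finset.sum_filter, ← Finset.mul_sum, mul_comm]
  congr 1
  unfold sg
  refine Finset.sum_congr ?_ (fun _ _ => rfl)
  ext i
  simp only [Finset.mem_filter, Finset.mem_Icc, Nat.mem_divisors]
  constructor
  · rintro ⟨⟨_, hP⟩, hd⟩
    exact ⟨⟨hd, by omega⟩, hP⟩
  · rintro ⟨⟨hd, h0⟩, hP⟩
    refine ⟨⟨⟨Nat.pos_of_dvd_of_pos hd (by omega), ?_⟩, hP⟩, hd⟩
    exact (Nat.le_of_dvd (by omega) hd).trans hj.2

end Pool.Agent.PDP
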